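import Mathlib

set_option autoImplicit false

namespace Pool.Agent.H.MP_65850b_an

open Complex Filter Topology MeasureTheory Set Metric

lemma quad {E : ℂ → ℂ} (hd : Differentiable ℂ E) (h0 : ∀ z, E z ≠ 0) {C : ℝ}
    (hb : ∀ z, ‖E z‖ ≤ C * Real.exp (‖z‖ ^ 2)) :
    ∃ a b : ℂ, ∀ z, E z = E 0 * cexp (a * z ^ 2 + b * z) := by
  obtain ⟨p, hp0, hp⟩ := (hd.deriv.div hd h0).isExactOn_univ.with_val_at 0 0
  have pd : Differentiable ℂ p := fun z => (hp z trivial).differentiableAt
  have e : ∀ z, E z = E 0 * cexp (p z) := by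
    have h2 : ∀ z, HasDerivAt (fun z => E z * cexp (-p z)) 0 z := by
      intro z
      have := (hd z).hasDerivAt.mul (hp z trivial).neg.cexp
      have e : deriv E z * cexp (-p z) + E z * (cexp (-p z) * -(deriv E z / E z)) = 0 := by
        have := h0 z
        field_simp
        ring
      rw [← e]
      exact this
    intro z
    have h3 := is_const_of_deriv_eq_zero (fun z => (h2 z).differentiableAt)
      (fun z => (h2 z).deriv) z 0
    simp only [hp0, neg_zero, Complex.exp_zero, mul_one] at h3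
    rw [← h3, mul_assoc, ← Complex.exp_add]
    simp
  have E0 : 0 < ‖E 0‖ := norm_pos_iff.2 (h0 0)
  obtain ⟨A, A0, hA⟩ : ∃ A : ℝ, 0 < A ∧ ∀ z, (p z).re ≤ A + ‖z‖ ^ 2 := by
    refine ⟨|C / ‖E 0‖| + 1, by positivity, fun z => ?_⟩
    have h1 := hb z
    rw [e z, norm_mul, norm_exp] at h1
    rw [← Real.exp_le_exp, Real.exp_add]
    have h2 : C / ‖E 0‖ ≤ Real.exp (|C / ‖E 0‖| + 1) := by
      linarith [Real.add_one_le_exp (|C / ‖E 0‖| + 1), le_abs_self (C / ‖E 0‖)]
    calc Real.exp (p z).re ≤ C / ‖E 0‖ * Real.exp (‖z‖ ^ 2) := by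
          rw [div_mul_eq_mul_div, le_div_iff₀ E0]; linarith
      _ ≤ _ := by gcongr
  have hq : ∀ z : ℂ, 1 ≤ ‖z‖ → ‖p z‖ ≤ 2 * (A + 4 * ‖z‖ ^ 2) := by
    intro z hz
    have := borelCaratheodory_zero (f := p) (M := A + 4 * ‖z‖ ^ 2) (R := 2 * ‖z‖) (z := z)
      (by positivity) pd.differentiableOn (fun w hw => by
        have h1 := hA w
        rw [mem_ball_zero_iff] at hw
        simp only [mem_ofPred_eq]
        nlinarith [norm_nonneg w]) (by linarith) (by rw [mem_ball_zero_iff]; linarith) hp0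
    rwa [show 2 * ‖z‖ - ‖z‖ = ‖z‖ by ring, mul_div_assoc, div_self (by linarith), mul_one] at this
  have d1 : Differentiable ℂ (dslope p 0) := by
    rw [← differentiableOn_univ, differentiableOn_dslope univ_mem]; exact pd.differentiableOn
  have d2 : Differentiable ℂ (dslope (dslope p 0) 0) := by
    rw [← differentiableOn_univ, differentiableOn_dslope univ_mem]; exact d1.differentiableOn
  set q := dslope (dslope p 0) 0 with hqd
  have pe : ∀ z, p z = q z * z ^ 2 + dslope p 0 0 * z := by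
    intro z
    have h1 := sub_smul_dslope p 0 z
    have h2 := sub_smul_dslope (dslope p 0) 0 z
    simp only [sub_zero, smul_eq_mul, hp0] at h1 h2
    rw [← h1, ← hqd] at *
    linear_combination (-z) * h2
  obtain ⟨M, hM⟩ := (isCompact_closedBall (0 : ℂ) 1).exists_bound_of_continuousOn
    d2.continuous.continuousOn
  have bd : Bornology.IsBounded (range q) := by
    refine isBounded_iff_forall_norm_le.2 ⟨max M (2 * A + 8 + ‖dslope p 0 0‖), ?_⟩
    rintro _ ⟨z, rfl⟩
    rcases le_total ‖z‖ 1 with h | h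
    · exact (hM z (by simpa using h)).trans (le_max_left _ _)
    · refine le_trans ?_ (le_max_right _ _)
      have h1 := hq z h
      have h2 : q z * z ^ 2 = p z - dslope p 0 0 * z := by rw [pe z]; ring
      have h3 := norm_sub_le (p z) (dslope p 0 0 * z)
      rw [← h2, norm_mul, norm_mul, norm_pow] at h3
      have h4 : 1 ≤ ‖z‖ ^ 2 := one_le_pow₀ h
      have h5 : ‖z‖ ≤ ‖z‖ ^ 2 := by nlinarith
      refine le_of_mul_le_mul_right ?_ (show 0 < ‖z‖ ^ 2 by positivity)
      nlinarith [norm_nonneg (dslope p 0 0)]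
  refine ⟨q 0, dslope p 0 0, fun z => ?_⟩
  rw [e z, pe z, d2.apply_eq_apply_of_bounded bd z 0]

lemma lap (μ : Measure ℝ) (f : ℝ → ℂ) (hm : AEStronglyMeasurable f μ)
    (hi : ∀ ρ : ℝ, Integrable (fun v => ‖f v‖ * Real.exp (ρ * |v|)) μ) :
    Differentiable ℂ fun ζ : ℂ => ∫ v, f v * cexp (ζ * v) ∂μ := by
  intro z0
  have hb : ∀ (z : ℂ) (v : ℝ), ‖cexp (z * v)‖ ≤ Real.exp (‖z‖ * |v|) := by
    intro z v
    rw [norm_exp, Real.exp_le_exp]
    refine (re_le_norm _).trans ?_
    simp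
  refine (hasDerivAt_integral_of_dominated_loc_of_deriv_le (μ := μ) (ball_mem_nhds z0 one_pos)
    (F := fun z (v : ℝ) => f v * cexp (z * v))
    (F' := fun z (v : ℝ) => f v * (cexp (z * v) * v))
    (bound := fun v => ‖f v‖ * Real.exp ((‖z0‖ + 2) * |v|))
    (Eventually.of_forall fun z => hm.mul (by fun_prop)) ?_
    (hm.mul (by fun_prop)) (Eventually.of_forall fun v z hz => ?_)
    (hi _) (Eventually.of_forall fun v z _ => ?_)).2.differentiableAt
  · refine (hi ‖z0‖).mono' (hm.mul (by fun_prop)) (Eventually.of_forall fun v => ?_)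
    rw [norm_mul]
    gcongr
    exact hb _ _
  · rw [norm_mul, norm_mul, norm_real, Real.norm_eq_abs]
    gcongr
    have h1 : ‖z‖ ≤ ‖z0‖ + 1 := by
      rw [mem_ball_iff_norm] at hz
      linarith [norm_sub_norm_le z z0]
    calc ‖cexp (z * v)‖ * |v| ≤ Real.exp ((‖z0‖ + 1) * |v|) * Real.exp |v| := by
          gcongr
          · exact (hb _ _).trans (by gcongr)
          · linarith [Real.add_one_le_exp |v|]
      _ = _ := by rw [← Real.exp_add]; congr 1; ring
  · have := (((hasDerivAt_id z).mul_const (v : ℂ)).cexp).const_mul (f v)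
    simpa using this

lemma hur {ι : Type*} {l : Filter ι} {G : ι → ℂ → ℂ} {E : ℂ → ℂ} (hE : Differentiable ℂ E)
    (hG : ∀ i, Differentiable ℂ (G i)) {z0 w : ℂ} (h0 : E z0 = 0) (hw : E w ≠ 0)
    (hc : ∀ ε > 0, ∀ᶠ i in l, ∀ z, ‖z - z0‖ ≤ 1 → ‖G i z - E z‖ ≤ ε) :
    ∀ᶠ i in l, ∃ z, ‖z - z0‖ ≤ 1 ∧ G i z = 0 := by
  have an := hE.analyticAt
  have h1 : ∀ᶠ s in 𝓝[≠] z0, E s ≠ 0 := (an z0).eventually_eq_zero_or_eventually_ne_zero.resolve_left
    fun h => hw (AnalyticOnNhd.eqOn_zero_of_preconnected_of_eventuallyEq_zero (U := Set.univ)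
      (fun z _ => an z) isPreconnected_univ trivial h trivial)
  obtain ⟨δ, δ0, hδ⟩ := Metric.eventually_nhds_iff.1 (eventually_nhdsWithin_iff.1 h1)
  have r0 : 0 < min 1 (δ / 2) := by positivity
  obtain ⟨u, hu, hm⟩ := (isCompact_sphere z0 (min 1 (δ / 2))).exists_isMinOn
    (NormedSpace.sphere_nonempty.2 r0.le) hE.continuous.norm.continuousOn
  have m0 : 0 < ‖E u‖ := by
    rw [mem_sphere] at hu
    refine norm_pos_iff.2 (hδ (by rw [hu]; linarith [min_le_right 1 (δ / 2)]) ?_)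
    rintro rfl
    simp at hu
    exact r0.ne (by simpa using hu)
  filter_upwards [hc (‖E u‖ / 3) (by positivity)] with i hi
  by_contra! k
  obtain ⟨s, hs, m⟩ := Complex.exists_mem_frontier_isMaxOn_norm (f := fun s => (G i s)⁻¹)
    (Metric.isBounded_ball (x := z0) (r := min 1 (δ / 2))) ⟨z0, Metric.mem_ball_self r0⟩
    (DifferentiableOn.diffContOnCl ((hG i).differentiableOn.inv fun s hs => k s
      ((mem_closedBall_iff_norm.1 (Metric.closure_ball_subset_closedBall hs)).trans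
        (min_le_left _ _))))
  rw [frontier_ball _ r0.ne'] at hs
  have := m (subset_closure (Metric.mem_ball_self r0))
  simp only [Function.comp, Set.mem_ofPred_eq, norm_inv] at this
  refine this.not_gt (inv_strictAnti₀ (norm_pos_iff.2 (k z0 (by simp))) ?_)
  have a1 := hi z0 (by simp)
  have a2 := hi s (by rw [mem_sphere_iff_norm.1 hs]; exact min_le_left _ _)
  have a3 : ‖E u‖ ≤ ‖E s‖ := hm hs
  rw [h0, sub_zero] at a1
  have a4 := norm_sub_norm_le (E s) (G i s)
  rw [norm_sub_rev] at a4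
  linarith

/-- Laplace transform of the half Gaussian -/
noncomputable def EE (ζ : ℂ) : ℂ :=
  ∫ v in Ioi (0 : ℝ), (Real.exp (-8 * v ^ 2) : ℂ) * cexp (ζ * v)

lemma gi (ρ : ℝ) : Integrable (fun v : ℝ => ‖(Real.exp (-8 * v ^ 2) : ℂ)‖ * Real.exp (ρ * |v|))
    (volume.restrict (Ioi 0)) := by
  refine ((integrable_exp_neg_mul_sq (b := 7) (by norm_num)).const_mul
    (Real.exp (ρ ^ 2))).integrableOn.mono' (by fun_prop) (Eventually.of_forall fun v => ?_)
  rw [norm_real, Real.norm_of_nonneg (Real.exp_pos _).le, ← Real.exp_add, ← Real.exp_add,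
    Real.norm_of_nonneg (Real.exp_pos _).le, Real.exp_le_exp]
  nlinarith [sq_abs v, sq_nonneg (ρ - |v|), sq_nonneg ρ, sq_nonneg v, sq_nonneg (2 * ρ - |v|)]

lemma EE_diff : Differentiable ℂ EE := lap _ _ (by fun_prop) gi

lemma EE_bd (z : ℂ) : ‖EE z‖ ≤ (∫ v in Ioi (0 : ℝ), Real.exp (-7 * v ^ 2)) * Real.exp (‖z‖ ^ 2) := by
  rw [← integral_mul_const]
  refine norm_integral_le_of_norm_le ((integrable_exp_neg_mul_sq (b := 7)
    (by norm_num)).integrableOn.mul_const _) (Eventually.of_forall fun v => ?_)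
  rw [norm_mul, norm_real, Real.norm_of_nonneg (Real.exp_pos _).le, norm_exp, ← Real.exp_add,
    ← Real.exp_add, Real.exp_le_exp]
  have h1 : (z * v).re ≤ ‖z‖ * |v| := (re_le_norm _).trans (by simp)
  nlinarith [sq_abs v, sq_nonneg (2 * ‖z‖ - |v|), sq_nonneg v]

lemma EE_up (x : ℝ) (hx : 0 < x) : ‖EE (-x : ℝ)‖ ≤ 1 / x := by
  have h1 := integral_exp_mul_Ioi (a := -x) (by linarith) 0
  simp only [mul_zero, Real.exp_zero, neg_div_neg_eq] at h1
  rw [← h1]
  refine norm_integral_le_of_norm_le (integrableOn_exp_mul_Ioi (by linarith) 0)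
    (Eventually.of_forall fun v => ?_)
  rw [norm_mul, norm_real, Real.norm_of_nonneg (Real.exp_pos _).le, norm_exp, ← Real.exp_add,
    Real.exp_le_exp]
  simp only [mul_re, ofReal_re, ofReal_im, mul_zero, sub_zero]
  nlinarith [sq_nonneg v]

lemma EE_lo (x : ℝ) (hx : 0 ≤ x) : Real.exp (-9) / (1 + x) ≤ ‖EE (-x : ℝ)‖ := by
  have e : EE (-x : ℝ) = ((∫ v in Ioi (0 : ℝ), Real.exp (-8 * v ^ 2) * Real.exp (-x * v) : ℝ) : ℂ) := by
    rw [EE, ← integral_complex_ofReal]
    congr 1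
    ext v
    push_cast
    rfl
  rw [e, norm_real]
  refine le_trans ?_ (le_abs_self _)
  have hi : IntegrableOn (fun v : ℝ => Real.exp (-8 * v ^ 2) * Real.exp (-x * v)) (Ioi 0) := by
    refine (gi x).mono' (by fun_prop) (Eventually.of_forall fun v => ?_)
    rw [norm_mul, norm_real, Real.norm_of_nonneg (Real.exp_pos (-x * v)).le]
    refine mul_le_mul_of_nonneg_left (Real.exp_le_exp.2 ?_) (norm_nonneg _)
    nlinarith [neg_abs_le v]
  have x1 : 0 < 1 + x := by linarith
  calc Real.exp (-9) / (1 + x) = ∫ _ in Ioc (0 : ℝ) (1 / (1 + x)), Real.exp (-9) := by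
        rw [setIntegral_const, Real.volume_real_Ioc_of_le (by positivity)]
        simp
        ring
    _ ≤ ∫ v in Ioc (0 : ℝ) (1 / (1 + x)), Real.exp (-8 * v ^ 2) * Real.exp (-x * v) := by
        refine setIntegral_mono_on (by simp) (hi.mono_set Ioc_subset_Ioi_self) measurableSet_Ioc
          fun v hv => ?_
        rw [← Real.exp_add, Real.exp_le_exp]
        have h1 := hv.2
        rw [le_div_iff₀ x1] at h1
        have h2 := hv.1
        have h3 : v ≤ 1 := by nlinarith
        nlinarith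
    _ ≤ _ := setIntegral_mono_set hi (Eventually.of_forall fun v => by positivity)
        Ioc_subset_Ioi_self.eventuallyLE

lemma EE_zero : ∃ z, EE z = 0 := by
  by_contra! h0
  obtain ⟨a, b, e⟩ := quad EE_diff h0 EE_bd
  set c := Real.exp (-9) with hc
  have c0 : 0 < c := Real.exp_pos _
  set h : ℝ := 9 / c ^ 4 + 1 with hh
  have h1 : 1 ≤ h := by rw [hh]; have : 0 ≤ 9 / c ^ 4 := by positivity
                        linarith
  have k : EE (-(3 * h) : ℝ) * EE (-h : ℝ) ^ 3 = EE (-(2 * h) : ℝ) ^ 3 * EE (-(0 : ℝ) : ℝ) := by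
    rw [e (-(3 * h) : ℝ), e (-h : ℝ), e (-(2 * h) : ℝ), mul_pow, mul_pow, ← Complex.exp_nat_mul,
      ← Complex.exp_nat_mul]
    simp only [neg_zero, ofReal_zero]
    have : ∀ u v w : ℂ, u + v = w → EE 0 * cexp u * (EE 0 ^ 3 * cexp v) =
        EE 0 ^ 3 * cexp w * EE 0 := by
      rintro u v w rfl
      rw [Complex.exp_add]; ring
    apply this
    push_cast
    ring
  have k2 := congrArg norm k
  simp only [norm_mul, norm_pow] at k2
  have u1 := EE_up (3 * h) (by linarith)
  have u2 := EE_up h (by linarith)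
  have l1 := EE_lo (2 * h) (by linarith)
  have l2 := EE_lo 0 le_rfl
  have l3 : c / (3 * h) ≤ c / (1 + 2 * h) := by gcongr; linarith
  have : (c / (3 * h)) ^ 3 * c ≤ 1 / (3 * h) * (1 / h) ^ 3 := by
    calc _ ≤ ‖EE (-(2 * h) : ℝ)‖ ^ 3 * ‖EE (-(0 : ℝ) : ℝ)‖ := by
          gcongr
          · exact l3.trans l1
          · simpa using l2
      _ ≤ _ := by rw [← k2]; gcongr
  have h2 : c ^ 4 * h ≤ 9 := by
    have hp : 0 < h := by linarith
    field_simp at this
    nlinarith
  rw [hh] at h2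
  field_simp at h2
  nlinarith [pow_pos c0 4]

end Pool.Agent.H.MP_65850b_an
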