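import Mathlib
import Pool.Agent.H.MP_65850b_an.A

set_option autoImplicit false

namespace Pool.Agent.H.MP_65850b_an

open Complex Filter Topology MeasureTheory Set Metric
open scoped Real

/-- the kernel -/
noncomputable def Phi (t : ℝ) : ℝ :=
  ∑' n : ℕ, (2 * π ^ 2 * ((n : ℝ) + 1) ^ 4 * Real.exp (9 * t) -
    3 * π * ((n : ℝ) + 1) ^ 2 * Real.exp (5 * t)) *
      Real.exp (-π * ((n : ℝ) + 1) ^ 2 * Real.exp (4 * t))

/-- truncated cosine transform -/
noncomputable def HH (R : ℝ) (z : ℂ) : ℂ := ∫ t in (0 : ℝ)..R, (Phi t : ℂ) * Complex.cos (z * t)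

/-- normalised term -/
noncomputable def ps (n : ℕ) (t : ℝ) : ℝ :=
  (((n : ℝ) + 1) ^ 4 - 3 * ((n : ℝ) + 1) ^ 2 * Real.exp (-4 * t) / (2 * π)) *
    Real.exp (-π * (((n : ℝ) + 1) ^ 2 - 1) * Real.exp (4 * t))

/-- normalised kernel -/
noncomputable def Ps (t : ℝ) : ℝ := ∑' n, ps n t

/-- main term -/
noncomputable def mn (t : ℝ) : ℝ := 2 * π ^ 2 * Real.exp (9 * t - π * Real.exp (4 * t))

lemma mn_pos (t : ℝ) : 0 < mn t := by unfold mn; positivity

lemma Phi_eq (t : ℝ) : Phi t = mn t * Ps t := by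
  rw [Ps, ← tsum_mul_left, Phi]
  congr 1
  ext n
  have h1 : Real.exp (5 * t) = Real.exp (9 * t) * Real.exp (-4 * t) := by
    rw [← Real.exp_add]; congr 1; ring
  have h2 : Real.exp (-π * ((n : ℝ) + 1) ^ 2 * Real.exp (4 * t)) =
      Real.exp (-(π * Real.exp (4 * t))) *
        Real.exp (-π * (((n : ℝ) + 1) ^ 2 - 1) * Real.exp (4 * t)) := by
    rw [← Real.exp_add]; congr 1; ring
  rw [ps, mn, h1, h2, sub_eq_add_neg (9 * t), Real.exp_add]
  field_simp

lemma co (n : ℕ) (t : ℝ) (ht : 0 ≤ t) :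
    0 < ((n : ℝ) + 1) ^ 4 - 3 * ((n : ℝ) + 1) ^ 2 * Real.exp (-4 * t) / (2 * π) := by
  have h1 : Real.exp (-4 * t) ≤ 1 := Real.exp_le_one_iff.2 (by linarith)
  have h2 : 1 ≤ ((n : ℝ) + 1) ^ 2 := one_le_pow₀ (by linarith [Nat.cast_nonneg (α := ℝ) n])
  rw [sub_pos, div_lt_iff₀ (by positivity), show ((n : ℝ) + 1) ^ 4 = ((n + 1) ^ 2) ^ 2 by ring]
  generalize ((n : ℝ) + 1) ^ 2 = m at *
  have h3 : 3 * m * Real.exp (-4 * t) ≤ 3 * m := by nlinarith
  have h4 : m ≤ m ^ 2 := by nlinarith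
  nlinarith [Real.pi_gt_three]

lemma ps_pos (n : ℕ) (t : ℝ) (ht : 0 ≤ t) : 0 < ps n t := mul_pos (co n t ht) (Real.exp_pos _)

lemma ps_le (n : ℕ) (t : ℝ) (ht : 0 ≤ t) :
    ‖ps n t‖ ≤ ((n : ℝ) + 1) ^ 4 * Real.exp (-(n * (1 + t))) := by
  rw [Real.norm_of_nonneg (ps_pos n t ht).le, ps]
  have h0 : (0 : ℝ) ≤ n := Nat.cast_nonneg n
  have h1 := Real.add_one_le_exp (4 * t)
  gcongr
  · exact sub_le_self _ (by positivity)
  · have h2 : (n : ℝ) ≤ π * ((n + 1) ^ 2 - 1) := by nlinarith [Real.pi_gt_three, sq_nonneg (n : ℝ)]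
    have h3 : (n : ℝ) * (1 + t) ≤ π * ((n + 1) ^ 2 - 1) * Real.exp (4 * t) := by
      gcongr
      · linarith
      · linarith
    linarith

lemma ps_le' (n : ℕ) (t : ℝ) (ht : 0 ≤ t) : ‖ps n t‖ ≤ ((n : ℝ) + 1) ^ 4 * Real.exp (-n) :=
  (ps_le n t ht).trans (by gcongr; nlinarith [Nat.cast_nonneg (α := ℝ) n])

lemma bd_sum : Summable fun n : ℕ => ((n : ℝ) + 1) ^ 4 * Real.exp (-n) := by
  have := ((summable_nat_add_iff 1).2 (Real.summable_pow_mul_exp_neg_nat_mul 4 one_pos)).mul_right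
    (Real.exp 1)
  refine this.congr fun n => ?_
  rw [mul_assoc, ← Real.exp_add]
  push_cast
  congr 2
  ring

lemma Ps_pos (t : ℝ) (ht : 0 ≤ t) : 0 < Ps t :=
  (Summable.of_norm_bounded bd_sum fun n => ps_le' n t ht).tsum_pos
    (fun n => (ps_pos n t ht).le) 0 (ps_pos 0 t ht)

lemma Ps_le : ∃ C, 0 ≤ C ∧ ∀ t, 0 ≤ t → |Ps t| ≤ C :=
  ⟨_, tsum_nonneg fun n => by positivity,
    fun t ht => tsum_of_norm_bounded bd_sum.hasSum fun n => ps_le' n t ht⟩

lemma Ps_cont : ContinuousOn Ps (Ici 0) :=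
  continuousOn_tsum (fun n => by unfold ps; fun_prop) bd_sum fun n t ht => ps_le' n t ht

lemma Ps_meas : Measurable Ps := Measurable.tsum fun n => by unfold ps; fun_prop

lemma Ps_lim : Tendsto Ps atTop (𝓝 1) := by
  have := tendsto_tsum_of_dominated_convergence (𝓕 := atTop) (f := fun t n => ps n t)
    (g := fun n => if n = 0 then 1 else 0) bd_sum (fun n => ?_)
    ((eventually_ge_atTop 0).mono fun t ht n => ps_le' n t ht)
  · unfold Ps
    simpa using this
  have he : Tendsto (fun t : ℝ => Real.exp (-t)) atTop (𝓝 0) := Real.tendsto_exp_neg_atTop_nhds_zero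
  split_ifs with h
  · subst h
    have h1 : Tendsto (fun t : ℝ => Real.exp (-4 * t)) atTop (𝓝 0) :=
      Real.tendsto_exp_atBot.comp (tendsto_id.const_mul_atTop_of_neg (by norm_num))
    have := ((h1.const_mul 3).div_const (2 * π)).const_sub 1
    simpa [ps] using this
  · have h1 : (1 : ℝ) ≤ n := by exact_mod_cast Nat.one_le_iff_ne_zero.2 h
    refine squeeze_zero_norm' ((eventually_ge_atTop 0).mono fun t ht => (ps_le n t ht).trans ?_)
      (by simpa using he.const_mul (((n : ℝ) + 1) ^ 4))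
    gcongr
    nlinarith

lemma Phi_cont : ContinuousOn Phi (Ici 0) := by
  rw [funext Phi_eq]
  exact (by unfold mn; fun_prop : Continuous mn).continuousOn.mul Ps_cont

lemma HH_diff (R : ℝ) (hR : 0 ≤ R) : Differentiable ℂ (HH R) := by
  have hc : ContinuousOn Phi (Icc 0 R) := Phi_cont.mono Icc_subset_Ici_self
  have hc' : ContinuousOn (fun t => (Phi t : ℂ)) (Icc 0 R) := continuous_ofReal.comp_continuousOn hc
  have d := lap (volume.restrict (Ioc 0 R)) (fun t => (Phi t : ℂ))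
    ((hc'.mono Ioc_subset_Icc_self).aestronglyMeasurable measurableSet_Ioc) fun ρ =>
      ((hc'.norm.mul (by fun_prop)).integrableOn_Icc).mono_set Ioc_subset_Icc_self
  have e : HH R = fun z => ((∫ v in Ioc 0 R, (Phi v : ℂ) * cexp (z * I * v)) +
      ∫ v in Ioc 0 R, (Phi v : ℂ) * cexp (-z * I * v)) / 2 := by
    ext z
    rw [HH, intervalIntegral.integral_of_le hR, ← integral_add, ← integral_div]
    · congr 1
      ext v
      rw [Complex.cos]
      ring_nf
    · exact ((hc'.mul (by fun_prop)).integrableOn_Icc).mono_set Ioc_subset_Icc_self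
    · exact ((hc'.mul (by fun_prop)).integrableOn_Icc).mono_set Ioc_subset_Icc_self
  rw [e]
  exact ((d.comp (f := fun z => z * I) (by fun_prop)).add
    (d.comp (f := fun z => -z * I) (by fun_prop))).div_const 2

lemma HH_axis (R : ℝ) (hR : 0 < R) (z : ℂ) (hz : z.re = 0) : HH R z ≠ 0 := by
  have e : HH R z = ((∫ t in (0 : ℝ)..R, Phi t * Real.cosh (z.im * t) : ℝ) : ℂ) := by
    rw [HH, ← intervalIntegral.integral_ofReal]
    congr 1
    ext t
    have : z * t = (z.im * t : ℝ) * I := by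
      apply Complex.ext <;> simp [hz]
    rw [this, cos_mul_I]
    push_cast
    rfl
  rw [e, ofReal_ne_zero]
  refine (intervalIntegral.intervalIntegral_pos_of_pos_on ?_ (fun t ht => ?_) hR).ne'
  · refine ContinuousOn.intervalIntegrable ?_
    rw [uIcc_of_le hR.le]
    exact (Phi_cont.mono Icc_subset_Ici_self).mul (by fun_prop)
  · rw [Phi_eq]
    have := mn_pos t
    have := Ps_pos t ht.1.le
    have := Real.cosh_pos (z.im * t)
    positivity

end Pool.Agent.H.MP_65850b_an
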