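import Mathlib
import Pool.Agent.H.MP_65850b_an.B

set_option autoImplicit false

namespace Pool.Agent.H.MP_65850b_an

open Complex Filter Topology MeasureTheory Set Metric
open scoped Real

/-- scale -/
noncomputable def sg (R : ℝ) : ℝ := Real.sqrt π * Real.exp (2 * R)

lemma sg_sq (R : ℝ) : sg R ^ 2 = π * Real.exp (4 * R) := by
  rw [sg, mul_pow, Real.sq_sqrt Real.pi_pos.le, ← Real.exp_nat_mul]
  congr 2
  push_cast
  ring

lemma sg_ge (R : ℝ) : 2 * R + 1 ≤ sg R := by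
  have h1 : 1 ≤ Real.sqrt π := Real.one_le_sqrt.2 (by linarith [Real.pi_gt_three])
  have := Real.add_one_le_exp (2 * R)
  unfold sg
  nlinarith [Real.exp_pos (2 * R)]

lemma sg_pos (R : ℝ) : 0 < sg R := by unfold sg; positivity

lemma sg_lim : Tendsto sg atTop atTop :=
  tendsto_atTop_mono sg_ge (tendsto_atTop_add_const_right _ _
    (tendsto_id.const_mul_atTop two_pos))

/-- rescaled kernel -/
noncomputable def kk (R v : ℝ) : ℝ :=
  Ps (R - v / sg R) * Real.exp (-(9 * v / sg R) -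
    sg R ^ 2 * (Real.exp (-(4 * v / sg R)) - 1 + 4 * v / sg R))

/-- cut kernel -/
noncomputable def aa (R : ℝ) : ℝ → ℝ := indicator (Iic (R * sg R)) (kk R)

/-- centre -/
noncomputable def WW (R : ℝ) (ζ : ℂ) : ℂ := 4 * (sg R : ℂ) ^ 2 - sg R * ζ

/-- rescaled transform -/
noncomputable def GG (R : ℝ) (ζ : ℂ) : ℂ :=
  HH R (WW R ζ * I) / (mn R * cexp (WW R ζ * R) / (2 * sg R))

lemma GG_diff (R : ℝ) (hR : 0 ≤ R) : Differentiable ℂ (GG R) := by
  have h1 := (mn_pos R).ne'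
  have h2 := (sg_pos R).ne'
  refine ((HH_diff R hR).comp (f := fun ζ => WW R ζ * I) (by unfold WW; fun_prop)).div
    (by unfold WW; fun_prop) fun ζ => ?_
  have := Complex.exp_ne_zero (WW R ζ * R)
  simp [h1, h2, this]

lemma rep (R : ℝ) (hR : 0 ≤ R) (ζ : ℂ) : GG R ζ = ∫ v in Ioi (0 : ℝ),
    (aa R v : ℂ) * (cexp (ζ * v) * (1 + cexp (-2 * WW R ζ * (R - v / sg R : ℝ)))) := by
  have s0 := sg_pos R
  have s1 : (sg R : ℂ) ≠ 0 := by exact_mod_cast s0.ne'
  have m1 : (mn R : ℂ) ≠ 0 := by exact_mod_cast (mn_pos R).ne'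
  have e1 : (fun v : ℝ => (aa R v : ℂ) * (cexp (ζ * v) *
      (1 + cexp (-2 * WW R ζ * (R - v / sg R : ℝ))))) = indicator (Iic (R * sg R)) fun v : ℝ =>
      (kk R v : ℂ) * (cexp (ζ * v) * (1 + cexp (-2 * WW R ζ * (R - v / sg R : ℝ)))) := by
    ext v
    by_cases h : v ∈ Iic (R * sg R) <;> simp [aa, h]
  rw [e1, setIntegral_indicator measurableSet_Iic, Ioi_inter_Iic,
    ← intervalIntegral.integral_of_le (by positivity)]
  have e2 := intervalIntegral.integral_comp_sub_div (a := 0) (b := R * sg R)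
    (fun t : ℝ => (Phi t : ℂ) * Complex.cos (WW R ζ * I * t)) s0.ne' R
  rw [mul_div_cancel_right₀ _ s0.ne', sub_self, zero_div, sub_zero] at e2
  have e3 : HH R (WW R ζ * I) = (∫ x in (0 : ℝ)..R * sg R, (Phi (R - x / sg R) : ℂ) *
      Complex.cos (WW R ζ * I * (R - x / sg R : ℝ))) / sg R := by
    rw [e2, HH, real_smul, mul_div_cancel_left₀ _ s1]
  rw [GG, e3, div_div, ← intervalIntegral.integral_div]
  congr 1
  ext v
  have h1 : mn (R - v / sg R) = mn R * Real.exp (-(9 * v / sg R) -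
      sg R ^ 2 * (Real.exp (-(4 * v / sg R)) - 1 + 4 * v / sg R)) * Real.exp (4 * sg R * v) := by
    have : Real.exp (4 * (R - v / sg R)) = Real.exp (4 * R) * Real.exp (-(4 * v / sg R)) := by
      rw [← Real.exp_add]; congr 1; ring
    rw [mn, mn, mul_assoc (2 * π ^ 2), mul_assoc (2 * π ^ 2), ← Real.exp_add, ← Real.exp_add, this,
      ← mul_assoc π, ← sg_sq]
    congr 2
    field_simp
    ring
  have h2 : Complex.cos (WW R ζ * I * (R - v / sg R : ℝ)) * (Real.exp (4 * sg R * v) : ℝ) =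
      cexp (WW R ζ * R) / 2 * (cexp (ζ * v) * (1 + cexp (-2 * WW R ζ * (R - v / sg R : ℝ)))) := by
    rw [mul_right_comm, cos_mul_I, Complex.cosh, ofReal_exp]
    have a1 : cexp (WW R ζ * (R - v / sg R : ℝ)) * cexp (4 * sg R * v : ℝ) =
        cexp (WW R ζ * R) * cexp (ζ * v) := by
      rw [← Complex.exp_add, ← Complex.exp_add, WW]
      congr 1
      push_cast
      field_simp
      ring
    have a2 : cexp (-(WW R ζ * (R - v / sg R : ℝ))) = cexp (WW R ζ * (R - v / sg R : ℝ)) *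
        cexp (-2 * WW R ζ * (R - v / sg R : ℝ)) := by
      rw [← Complex.exp_add]; congr 1; ring
    rw [a2]
    linear_combination (1 + cexp (-2 * WW R ζ * (R - v / sg R : ℝ))) / 2 * a1
  have h3 := Complex.exp_ne_zero (WW R ζ * R)
  rw [Phi_eq, h1, kk, div_eq_iff (by simp [s1, m1, h3])]
  simp only [ofReal_mul]
  generalize ((Real.exp (-(9 * v / sg R) -
    sg R ^ 2 * (Real.exp (-(4 * v / sg R)) - 1 + 4 * v / sg R)) : ℝ) : ℂ) = X
  generalize R - v / sg R = t at *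
  generalize cexp (-2 * WW R ζ * t) = Z at *
  field_simp
  linear_combination 2 * X * Ps t * h2

lemma tang (x ε : ℝ) (h : ε ≤ 1) : ε * x - ε ^ 2 ≤ Real.exp (-x) - 1 + x := by
  have h1 := Real.add_one_le_exp (-ε)
  have h2 := Real.add_one_le_exp (ε - x)
  have h3 : Real.exp (-x) = Real.exp (-ε) * Real.exp (ε - x) := by
    rw [← Real.exp_add]; congr 1; ring
  have h4 : (1 - ε) * (ε - x + 1) ≤ Real.exp (-x) := by
    rw [h3]
    calc _ ≤ (1 - ε) * Real.exp (ε - x) := by gcongr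
      _ ≤ _ := by gcongr; linarith
  nlinarith

lemma aa_le : ∃ C, 0 ≤ C ∧ ∀ K R v : ℝ, K ≤ sg R → 0 ≤ v →
    |aa R v| ≤ C * Real.exp (K ^ 2 - 4 * K * v) := by
  obtain ⟨C, C0, hC⟩ := Ps_le
  refine ⟨C, C0, fun K R v hK hv => ?_⟩
  have s0 := sg_pos R
  by_cases h : v ∈ Iic (R * sg R)
  · rw [aa, indicator_of_mem h, kk, abs_mul, abs_of_pos (Real.exp_pos _)]
    refine mul_le_mul ?_ (Real.exp_le_exp.2 ?_) (Real.exp_pos _).le C0
    · exact hC _ (by rw [sub_nonneg, div_le_iff₀ s0]; exact h)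
    · have h1 := tang (4 * v / sg R) (K / sg R) ((div_le_one s0).2 hK)
      have h2 : sg R ^ 2 * (K / sg R * (4 * v / sg R) - (K / sg R) ^ 2) = 4 * K * v - K ^ 2 := by
        field_simp
      have h3 : 0 ≤ 9 * v / sg R := by positivity
      nlinarith [mul_le_mul_of_nonneg_left h1 (sq_nonneg (sg R))]
  · rw [aa, indicator_of_notMem h, abs_zero]; positivity

lemma t_lim (v : ℝ) : Tendsto (fun R => R - v / sg R) atTop atTop := by
  simp only [sub_eq_add_neg]
  exact tendsto_id.atTop_add (tendsto_const_nhds.div_atTop sg_lim).neg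

lemma aa_lim (v : ℝ) (hv : 0 ≤ v) :
    Tendsto (fun R => aa R v) atTop (𝓝 (Real.exp (-8 * v ^ 2))) := by
  have h1 : Tendsto (fun R => sg R ^ 2 * (Real.exp (-(4 * v / sg R)) - 1 + 4 * v / sg R))
      atTop (𝓝 (8 * v ^ 2)) := by
    rw [tendsto_iff_norm_sub_tendsto_zero]
    refine squeeze_zero' (Eventually.of_forall fun _ => norm_nonneg _) ?_
      ((tendsto_const_nhds (x := 64 * v ^ 3)).div_atTop sg_lim)
    filter_upwards [sg_lim.eventually_ge_atTop (4 * v)] with R hR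
    have s0 := sg_pos R
    have x0 : 0 ≤ 4 * v / sg R := by positivity
    have b := Real.exp_bound (x := -(4 * v / sg R)) (n := 3)
      (by rw [abs_neg, abs_of_nonneg x0]; exact (div_le_one s0).2 hR) (by norm_num)
    rw [abs_neg, abs_of_nonneg x0] at b
    have e : sg R ^ 2 * (Real.exp (-(4 * v / sg R)) - 1 + 4 * v / sg R) - 8 * v ^ 2 =
        sg R ^ 2 * (Real.exp (-(4 * v / sg R)) -
          ∑ m ∈ Finset.range 3, (-(4 * v / sg R)) ^ m / m.factorial) := by
      simp only [Finset.sum_range_succ, Finset.sum_range_zero, Nat.factorial]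
      field_simp
      ring
    rw [e, Real.norm_eq_abs, abs_mul, abs_of_pos (pow_pos s0 2)]
    calc _ ≤ sg R ^ 2 * ((4 * v / sg R) ^ 3 * 1) := by
          gcongr
          refine b.trans ?_
          gcongr
          norm_num [Nat.factorial]
      _ = _ := by field_simp; ring
  have h2 := (Ps_lim.comp (t_lim v)).mul (Real.continuous_exp.continuousAt.tendsto.comp
    (((tendsto_const_nhds (x := 9 * v)).div_atTop sg_lim).neg.sub h1))
  rw [one_mul, neg_zero, zero_sub, ← neg_mul] at h2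
  refine h2.congr' ?_
  filter_upwards [(t_lim v).eventually_ge_atTop 0] with R hR
  rw [aa, indicator_of_mem (by rwa [sub_nonneg, div_le_iff₀ (sg_pos R)] at hR)]
  rfl

lemma aa_meas (R : ℝ) : Measurable (aa R) := by
  have := Ps_meas
  refine Measurable.indicator ?_ measurableSet_Iic
  unfold kk
  fun_prop

/-- uniform error density -/
noncomputable def DD (ρ R v : ℝ) : ℝ :=
  (|aa R v - Real.exp (-8 * v ^ 2)| + |aa R v| * Real.exp (-max (R - v / sg R) 0)) *
    Real.exp (ρ * v)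

lemma DD_le (ρ : ℝ) (hρ : 0 ≤ ρ) : ∃ C, ∀ R v : ℝ, ρ + 1 ≤ sg R → 0 ≤ v →
    ‖DD ρ R v‖ ≤ C * Real.exp (-1 * v) ∧ |aa R v| * (Real.exp (ρ * v) * 2) ≤ C * Real.exp (-1 * v) := by
  obtain ⟨C, C0, hC⟩ := aa_le
  refine ⟨(2 * C + 1) * Real.exp ((ρ + 1) ^ 2), fun R v hR hv => ?_⟩
  have h1 := hC _ R v hR hv
  have h2 : Real.exp (-8 * v ^ 2) ≤ Real.exp ((ρ + 1) ^ 2 - 4 * (ρ + 1) * v) :=
    Real.exp_le_exp.2 (by nlinarith [sq_nonneg (ρ + 1 - 2 * v), sq_nonneg v])
  have h3 : Real.exp (-max (R - v / sg R) 0) ≤ 1 :=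
    Real.exp_le_one_iff.2 (by linarith [le_max_right (R - v / sg R) 0])
  have h4 : Real.exp ((ρ + 1) ^ 2 - 4 * (ρ + 1) * v) * Real.exp (ρ * v) ≤
      Real.exp ((ρ + 1) ^ 2) * Real.exp (-1 * v) := by
    rw [← Real.exp_add, ← Real.exp_add, Real.exp_le_exp]
    nlinarith
  have h5 := abs_sub (aa R v) (Real.exp (-8 * v ^ 2))
  rw [abs_of_pos (Real.exp_pos _)] at h5
  have h6 := mul_le_of_le_one_right (abs_nonneg (aa R v)) h3
  constructor
  · rw [Real.norm_of_nonneg (by unfold DD; positivity), DD]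
    calc _ ≤ (2 * C + 1) * Real.exp ((ρ + 1) ^ 2 - 4 * (ρ + 1) * v) * Real.exp (ρ * v) := by
          gcongr
          linarith
      _ ≤ _ := by rw [mul_assoc (2 * C + 1), mul_assoc (2 * C + 1)]; gcongr
  · calc _ ≤ C * Real.exp ((ρ + 1) ^ 2 - 4 * (ρ + 1) * v) * (Real.exp (ρ * v) * 2) := by gcongr
      _ = 2 * C * (Real.exp ((ρ + 1) ^ 2 - 4 * (ρ + 1) * v) * Real.exp (ρ * v)) := by ring
      _ ≤ _ := by rw [mul_assoc (2 * C + 1)]; gcongr; linarith

lemma DD_meas (ρ R : ℝ) : Measurable (DD ρ R) := by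
  have := aa_meas R
  unfold DD
  fun_prop

lemma DD_lim (ρ : ℝ) (hρ : 0 ≤ ρ) :
    Tendsto (fun R => ∫ v in Ioi (0 : ℝ), DD ρ R v) atTop (𝓝 0) := by
  obtain ⟨C, hC⟩ := DD_le ρ hρ
  have := tendsto_integral_filter_of_dominated_convergence (μ := volume.restrict (Ioi (0 : ℝ)))
    (l := atTop) (F := DD ρ) (f := fun _ => 0) (fun v => C * Real.exp (-1 * v))
    (Eventually.of_forall fun R => (DD_meas ρ R).aestronglyMeasurable)
    ((sg_lim.eventually_ge_atTop (ρ + 1)).mono fun R hR =>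
      (ae_restrict_mem measurableSet_Ioi).mono fun v hv => (hC R v hR (le_of_lt hv)).1)
    ((integrableOn_exp_mul_Ioi (by norm_num) 0).const_mul C)
    ((ae_restrict_mem measurableSet_Ioi).mono fun v hv => ?_)
  · simpa using this
  have a := aa_lim v (le_of_lt hv)
  have b : Tendsto (fun R => Real.exp (-max (R - v / sg R) 0)) atTop (𝓝 0) :=
    Real.tendsto_exp_neg_atTop_nhds_zero.comp
      (tendsto_atTop_mono (fun _ => le_max_left _ _) (t_lim v))
  have := (((a.sub_const (Real.exp (-8 * v ^ 2))).abs).add (a.abs.mul b)).mul_const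
    (Real.exp (ρ * v))
  simpa [DD] using this

lemma WW_re (ρ R : ℝ) (hR : ρ + 1 ≤ sg R) (hρ : 0 ≤ ρ) (ζ : ℂ) (hζ : ‖ζ‖ ≤ ρ) :
    sg R ≤ (WW R ζ).re := by
  have e : (WW R ζ).re = 4 * sg R ^ 2 - sg R * ζ.re := by
    rw [WW, ← ofReal_pow]
    simp [-ofReal_pow]
  have := (re_le_norm ζ).trans hζ
  rw [e]
  nlinarith

lemma conv (ρ : ℝ) (hρ : 0 ≤ ρ) (ε : ℝ) (hε : 0 < ε) :
    ∀ᶠ R in atTop, ∀ ζ : ℂ, ‖ζ‖ ≤ ρ → ‖GG R ζ - EE ζ‖ ≤ ε := by
  obtain ⟨C, hC⟩ := DD_le ρ hρ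
  filter_upwards [(DD_lim ρ hρ).eventually_le_const hε, sg_lim.eventually_ge_atTop (ρ + 1),
    eventually_ge_atTop 0] with R h1 h2 h3 ζ hζ
  have hi := (integrableOn_exp_mul_Ioi (a := -1) (by norm_num) 0).const_mul C
  have am := aa_meas R
  have k1 : ∀ v : ℝ, 0 ≤ v → ‖cexp (ζ * v)‖ ≤ Real.exp (ρ * v) := by
    intro v hv
    rw [norm_exp, Real.exp_le_exp, re_mul_ofReal]
    gcongr
    exact (re_le_norm ζ).trans hζ
  have k2 : ∀ v : ℝ, aa R v = 0 ∨
      ‖cexp (-2 * WW R ζ * (R - v / sg R : ℝ))‖ ≤ Real.exp (-max (R - v / sg R) 0) := by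
    intro v
    by_cases h : v ∈ Iic (R * sg R)
    · right
      have t0 : 0 ≤ R - v / sg R := by rw [sub_nonneg, div_le_iff₀ (sg_pos R)]; exact h
      rw [norm_exp, Real.exp_le_exp, re_mul_ofReal, max_eq_left t0]
      have := WW_re ρ R h2 hρ ζ hζ
      have e : (-2 * WW R ζ).re = -2 * (WW R ζ).re := by simp
      rw [e]
      nlinarith
    · exact Or.inl (indicator_of_notMem h _)
  have k3 : ∀ v : ℝ, Real.exp (-max (R - v / sg R) 0) ≤ 1 := fun v =>
    Real.exp_le_one_iff.2 (by linarith [le_max_right (R - v / sg R) 0])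
  rw [rep R h3, EE, ← integral_sub]
  · refine (norm_integral_le_of_norm_le (hi.mono' (DD_meas ρ R).aestronglyMeasurable
      ((ae_restrict_mem measurableSet_Ioi).mono fun v hv => (hC R v h2 (le_of_lt hv)).1))
      ((ae_restrict_mem measurableSet_Ioi).mono fun v hv => ?_)).trans h1
    have e : (aa R v : ℂ) * (cexp (ζ * v) * (1 + cexp (-2 * WW R ζ * (R - v / sg R : ℝ)))) -
        (Real.exp (-8 * v ^ 2) : ℝ) * cexp (ζ * v) = (((aa R v - Real.exp (-8 * v ^ 2) : ℝ) : ℂ) +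
        aa R v * cexp (-2 * WW R ζ * (R - v / sg R : ℝ))) * cexp (ζ * v) := by
      rw [ofReal_sub (aa R v)]; ring
    rw [e, norm_mul, DD]
    gcongr
    · refine (norm_add_le _ _).trans ?_
      rw [norm_real, norm_mul, norm_real, Real.norm_eq_abs, Real.norm_eq_abs]
      rcases k2 v with h | h
      · simp [h]
      · gcongr
    · exact k1 v (le_of_lt hv)
  · refine hi.mono' (Measurable.aestronglyMeasurable (by fun_prop))
      ((ae_restrict_mem measurableSet_Ioi).mono fun v hv =>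
        le_trans ?_ (hC R v h2 (le_of_lt hv)).2)
    rw [norm_mul, norm_mul, norm_real, Real.norm_eq_abs]
    rcases k2 v with h | h
    · simp [h]
    · gcongr
      · exact k1 v (le_of_lt hv)
      · refine (norm_add_le _ _).trans ?_
        rw [norm_one]
        linarith [k3 v]
  · refine (gi ρ).mono' (by fun_prop) ((ae_restrict_mem measurableSet_Ioi).mono fun v hv => ?_)
    rw [norm_mul, abs_of_pos hv]
    gcongr
    exact k1 v (le_of_lt hv)

theorem main (Y : ℝ) : ∀ᶠ R in atTop, ∃ z : ℂ, HH R z = 0 ∧ Y ≤ z.im ∧ z.re ≠ 0 := by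
  obtain ⟨z0, h0⟩ := EE_zero
  have hw : EE (-(0 : ℝ) : ℝ) ≠ 0 :=
    norm_pos_iff.1 (lt_of_lt_of_le (by positivity) (EE_lo 0 le_rfl))
  have k : ∀ z : ℂ, ‖z - z0‖ ≤ 1 → ‖z‖ ≤ ‖z0‖ + 1 := fun z hz => by
    linarith [norm_sub_norm_le z z0]
  have := hur (l := atTop) (G := fun R => GG (max R 0)) EE_diff
    (fun R => GG_diff _ (le_max_right _ _)) h0 hw fun ε hε => by
      filter_upwards [conv (‖z0‖ + 1) (by positivity) ε hε, eventually_ge_atTop 0] with R h hR z hz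
      rw [max_eq_left hR]
      exact h z (k z hz)
  filter_upwards [this, eventually_gt_atTop 0, sg_lim.eventually_ge_atTop (‖z0‖ + 1 + 1),
    sg_lim.eventually_ge_atTop Y] with R ⟨ζ, h1, h2⟩ hR h3 h4
  rw [max_eq_left hR.le, GG, div_eq_zero_iff] at h2
  have h5 : HH R (WW R ζ * I) = 0 := h2.resolve_right (by
    simp [(mn_pos R).ne', (sg_pos R).ne', Complex.exp_ne_zero])
  refine ⟨_, h5, ?_, fun h => HH_axis R hR _ h h5⟩
  rw [mul_I_im]
  exact h4.trans (WW_re _ R h3 (by positivity) ζ (k ζ h1))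

end Pool.Agent.H.MP_65850b_an
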